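import Pool.Agent.Helper80.MM.Stm
import Pool.Agent.Helper35.EM.ConjCases
import Pool.Agent.Helper56.SA.Hr

/-!
# MM, package FLD: the field
-/

set_option autoImplicit false

namespace Pool.Agent.Helper17.MM

open Pool.Agent.Helper35.EM Pool.Agent.Helper56.SA Pool.Agent.Helper56.EM Pool.Agent.Helper56.NL
  Pool.Agent.Helper56.HS Pool.Agent.Helper80.MM Module Submodule Set ComplexConjugate

theorem span_pair {s : ℕ → ℝ} {w e : ℕ → ℂ} {v : ℂ} (hv : v ∈ span ℚ (range w)) :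
    ∃ x ∈ span ℚ (range fun k => e k * (s k : ℂ)), (x, v) ∈ PB s w e := by
  induction hv using Submodule.span_induction with
  | mem x hx =>
    obtain ⟨k, rfl⟩ := hx
    exact ⟨e k * (s k : ℂ), subset_span ⟨k, rfl⟩, subset_span ⟨k, rfl⟩⟩
  | zero => exact ⟨0, zero_mem _, zero_mem _⟩
  | add x y _ _ hx hy =>
    obtain ⟨a, ha, ha'⟩ := hx
    obtain ⟨b, hb, hb'⟩ := hy
    exact ⟨a + b, add_mem ha hb, add_mem ha' hb'⟩
  | smul c x _ hx =>
    obtain ⟨a, ha, ha'⟩ := hx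
    exact ⟨c • a, Submodule.smul_mem _ _ ha, (PB s w e).smul_mem c ha'⟩

theorem fieldMM (hSCHL : S_SCHL) {D : ℕ} {s t : ℕ → ℝ} (hs : Helper80.MM.Seq D s t) {w e : ℕ → ℂ}
    (hLB : LB w e) (hSI : SI (PB s w e) (range fun k => (s k : ℂ)))
    (hrkP : ∀ U ≤ PB s w e, FiniteDimensional ℚ U → (finrank ℚ U : ℕ∞) ≤ M.eRk (co U))
    (hτ : (2 * Complex.I * (Real.pi : ℂ), 2 * (Real.pi : ℂ) * Complex.I) ∈ PB s w e)
    {K : IntermediateField ℚ ℂ}
    (hKcl : ∀ z : ℂ, IsAlgebraic K.toSubfield z → z ∈ K)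
    (hconjK : ∀ x ∈ K, conj x ∈ K) (hpK : (Real.pi : ℂ) ∈ K) (E : K → K) (lam : K →ₗ[ℚ] ℂ)
    (hE : ∀ x, (E x : ℂ) = Complex.exp (lam x)) (hsurj : ∀ y, y ≠ 0 → ∃ x, E x = y)
    (hker : ∀ x, E x = 1 ↔ ∃ n : ℤ, (x : ℂ) = n * (2 * Complex.I * (Real.pi : ℂ)))
    (hP : ∀ q ∈ PB s w e, ∃ x : K, (x : ℂ) = q.1 ∧ lam x = q.2)
    (hrk : ∀ V : Submodule ℚ K, FiniteDimensional ℚ V →
      ∃ I : Finset ℂ, (I : Set ℂ) ⊆ co (V.map (gr lam)) ∧ IndS (range fun k => (s k : ℂ)) I ∧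
        finrank ℚ V ≤ I.card + finrank ℚ (V.map (gr lam) ⊓ PB s w e : Submodule ℚ (ℂ × ℂ)))
    (hconj : ∀ x y : K, (y : ℂ) = conj (x : ℂ) → lam y = conj (lam x)) :
    ∃ F : Pool.Agent.Helper56.NL.ExpField, F.p = Real.pi ∧ Schanuel F ∧
      (∀ k, e k * (s k : ℂ) ∈ F.K ∧ F.E (e k * (s k : ℂ)) = Complex.exp (w k)) ∧
      ∀ u, Pool.Agent.Helper56.NL.IsLog F u → u ∈ span ℚ (range fun k => e k * (s k : ℂ)) := by
  classical
  have hlaminj : ∀ x y : K, lam x = lam y → x = y := by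
    intro x y hxy
    have h1 : lam (x - y) = 0 := by rw [map_sub, hxy, sub_self]
    have h2 : E (x - y) = 1 := by
      apply Subtype.ext
      rw [hE, h1, Complex.exp_zero]
      rfl
    obtain ⟨n, hn⟩ := (hker _).1 h2
    obtain ⟨τ, hτ1, hτ2⟩ := hP _ hτ
    have h3 : x - y = (n : ℚ) • τ := by
      apply Subtype.ext
      rw [hn]
      show _ = (((n : ℚ) • τ : K) : ℂ)
      have : (((n : ℚ) • τ : K) : ℂ) = (n : ℂ) * (τ : ℂ) := by
        have e0 : (((n : ℚ) • τ : K) : ℂ) = (n : ℚ) • (τ : ℂ) := rfl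
        rw [e0, Rat.smul_def]
        simp
      rw [this, hτ1]
    rw [h3, map_smul, hτ2, Rat.smul_def] at h1
    have h4 : (n : ℂ) = 0 := by
      rcases mul_eq_zero.1 h1 with h | h
      · exact_mod_cast h
      · exfalso
        have := Complex.two_pi_I_ne_zero
        exact this h
    have h5 : n = 0 := by exact_mod_cast h4
    rw [h5] at h3
    simp only [Int.cast_zero, zero_smul] at h3
    exact sub_eq_zero.1 h3
  let EE : ℂ → ℂ := fun x => if hx : x ∈ K then Complex.exp (lam ⟨x, hx⟩) else 0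
  have hEE : ∀ x : K, EE x = Complex.exp (lam x) := fun x => by
    simp only [EE]
    rw [dif_pos x.2]
  have hEP : ∀ q ∈ PB s w e, EE q.1 = Complex.exp q.2 := by
    intro q hq
    obtain ⟨x, h1, h2⟩ := hP q hq
    rw [← h1, hEE, h2]
  have hfst : ∀ q ∈ PB s w e, q.1 ∈ K := by
    intro q hq
    obtain ⟨x, h1, h2⟩ := hP q hq
    rw [← h1]; exact x.2
  have hexpK : ∀ x : K, Complex.exp (lam x) ∈ K := fun x => by rw [← hE]; exact (E x).2
  let F : Pool.Agent.Helper56.NL.ExpField :=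
    { K := K.toSubfield
      E := EE
      p := Real.pi
      closed := hKcl
      conj_mem := hconjK
      E_mem := fun x hx => by
        show EE x ∈ K
        rw [hEE ⟨x, hx⟩]; exact hexpK _
      E_add := fun x hx y hy => by
        have h1 := hEE (⟨x, hx⟩ + ⟨y, hy⟩)
        rw [map_add, Complex.exp_add, ← hEE, ← hEE] at h1
        exact h1
      E_surj := fun y hy hy0 => by
        obtain ⟨x, hx⟩ := hsurj ⟨y, hy⟩ (fun h0 => hy0 (congrArg Subtype.val h0))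
        refine ⟨x, x.2, ?_⟩
        rw [hEE, ← hE, hx]
      E_conj := fun x hx => by
        have h1 := hconj ⟨x, hx⟩ ⟨conj x, hconjK x hx⟩ rfl
        have h2 := hEE ⟨conj x, hconjK x hx⟩
        rw [h1, Complex.exp_conj, ← hEE] at h2
        exact h2
      ker := fun x hx => by
        have h1 := hker ⟨x, hx⟩
        have h2 : EE x = 1 ↔ E ⟨x, hx⟩ = 1 := by
          rw [hEE ⟨x, hx⟩, ← hE]
          constructor
          · intro h0; exact Subtype.ext h0
          · intro h0; rw [h0]; rfl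
        rw [h2, h1]
        refine exists_congr fun n => ?_
        show x = n * (2 * Complex.I * Real.pi) ↔ _
        rw [show (n : ℂ) * (2 * Complex.I * Real.pi) = 2 * Real.pi * Complex.I * n by ring]
      p_mem := hpK
      p_pos := Real.pi_pos }
  refine ⟨F, rfl, ?_, ?_, ?_⟩
  · intro n z hz hi
    let z' : Fin n → K := fun i => ⟨z i, hz i⟩
    have hi' : LinearIndependent ℚ z' := by
      have h1 : z = K.val.toLinearMap ∘ z' := rfl
      rw [h1] at hi
      exact hi.of_comp _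
    obtain ⟨f, hf1, hf2⟩ := hSCHL K lam _ (PB s w e) hSI hrkP hrk n z' hi'
    refine ⟨f, fun i => ?_, hf2⟩
    rcases hf1 i with ⟨j, hj⟩ | ⟨j, hj⟩
    · exact Or.inl ⟨j, hj⟩
    · refine Or.inr ⟨j, ?_⟩
      rw [← hj]
      exact hEE (z' j)
  · intro k
    have h0 : (e k * (s k : ℂ), w k) ∈ PB s w e := subset_span ⟨k, rfl⟩
    exact ⟨hfst _ h0, hEP _ h0⟩
  · intro u hu
    have h1 : Complex.exp (lam ⟨u, hu.1⟩) ∈ M.closure ∅ := by
      rw [← hEE]; exact mem_cl_empty.2 hu.2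
    obtain ⟨x, hx, hx'⟩ := span_pair (s := s) (e := e) ((hLB.spn _).2 h1)
    obtain ⟨y, hy1, hy2⟩ := hP _ hx'
    have h2 : y = ⟨u, hu.1⟩ := hlaminj _ _ hy2
    have h3 : u = x := by
      have := congrArg (fun y : K => (y : ℂ)) h2
      exact this.symm.trans hy1
    rw [h3]
    exact hx

theorem fld : S_FLD := by
  intro hPB1 hPB2 hSCHL D s t hs w e hLB
  classical
  obtain ⟨hSI, hCS⟩ := hPB1 D s t hs w e hLB
  have hrkP := hPB2 D s t hs w e hLB
  have hτ : (2 * Complex.I * (Real.pi : ℂ), 2 * (Real.pi : ℂ) * Complex.I) ∈ PB s w e := by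
    have h0 : (e 0 * (s 0 : ℂ), w 0) ∈ PB s w e := subset_span ⟨0, rfl⟩
    have h1 := (PB s w e).smul_mem (2 : ℚ) h0
    have e1 : (2 : ℚ) • (e 0 * (s 0 : ℂ), w 0) =
        (2 * Complex.I * (Real.pi : ℂ), 2 * (Real.pi : ℂ) * Complex.I) := by
      rw [hLB.e0, hLB.w0, hs.zero]
      ext1
      · change (2 : ℚ) • (Complex.I * (Real.pi : ℂ)) = _
        rw [Rat.smul_def]; push_cast; ring
      · change (2 : ℚ) • ((Real.pi : ℂ) * Complex.I) = _
        rw [Rat.smul_def]; push_cast; ring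
    rwa [e1] at h1
  have hFF : FF (range fun k => (s k : ℂ)) (fun k => (t k : ℂ)) 0 = range fun k => (s k : ℂ) := by
    simp [FF]
  have hExt : ExtS (range fun k => (s k : ℂ)) (fun k => (t k : ℂ)) (PB s w e) (PB s w e)
      (PB s w e) 0 :=
    ⟨le_rfl, by rw [hFF]; exact hSI, IneqS.refl _ _, hCS⟩
  obtain ⟨E, lam, hE, hsurj, hker, hP, hrk, hconj⟩ := extS hs.freeS hExt _ hτ
  have hreal : ∀ y ∈ (range fun k => (s k : ℂ)) ∪ range (fun k => (t k : ℂ)), conj y = y := by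
    rintro _ (⟨n, rfl⟩ | ⟨n, rfl⟩) <;> exact Complex.conj_ofReal _
  exact fieldMM hSCHL hs hLB hSI hrkP hτ (fun z hz => cl_idem hz)
    (fun x hx => mem_cl.1 (Pool.Agent.Helper35.EM.conj_mem hreal (mem_cl.2 hx)))
    (mem_cl.1 (cl_self (Or.inl ⟨0, by simp only [hs.zero]⟩))) E lam hE hsurj hker hP hrk hconj

end Pool.Agent.Helper17.MM
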